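import Mathlib

/-!
# Noncrossing involutions: uniqueness from the word of openers and closers, closure of balanced blocks
-/

namespace Pool.Agent.Helper976.Stamp

/-- `σ` is a noncrossing involution of `{0, ..., N - 1}` (fixed points are unmatched points). -/
structure NC (N : ℕ) (σ : ℕ → ℕ) : Prop where
  lt : ∀ k, k < N → σ k < N
  inv : ∀ k, k < N → σ (σ k) = k
  nc : ∀ i j, i < N → j < N → i < j → j < σ i → σ i < σ j → False

theorem NC.inj {N : ℕ} {σ : ℕ → ℕ} (h : NC N σ) {a b : ℕ} (ha : a < N) (hb : b < N)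
    (hab : σ a = σ b) : a = b := by
  have h1 := h.inv a ha
  have h2 := h.inv b hb
  rw [hab] at h1
  rw [← h1, h2]

/-- inside an arc the involution stays inside -/
theorem NC.inside {N : ℕ} {σ : ℕ → ℕ} (h : NC N σ) {i k : ℕ} (hi : i < N) (hik : i < k)
    (hk : k < σ i) : i < σ k ∧ σ k < σ i := by
  have hsi := h.lt i hi
  have hkN : k < N := by omega
  have hsk := h.lt k hkN
  have hne1 : σ k ≠ i := by
    intro he
    have := h.inv k hkN
    rw [he] at this
    omega
  have hne2 : σ k ≠ σ i := by
    intro he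
    have := h.inj hkN hi he
    omega
  by_contra hcon
  rcases Nat.lt_or_ge i (σ k) with h1 | h1
  · have h2 : σ i < σ k := by omega
    exact h.nc i k hi hkN hik hk h2
  · have h1' : σ k < i := by omega
    have h3 := h.inv k hkN
    refine h.nc (σ k) i hsk hi h1' ?_ ?_ <;> rw [h3] <;> omega

theorem NC.unique {N : ℕ} {σ τ : ℕ → ℕ} (hσ : NC N σ) (hτ : NC N τ)
    (ho : ∀ k, k < N → (k < σ k ↔ k < τ k)) (hc : ∀ k, k < N → (σ k < k ↔ τ k < k)) :
    ∀ k, k < N → σ k = τ k := by
  have key : ∀ d i : ℕ, i < N → i < σ i → σ i - i ≤ d → τ i = σ i := by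
    intro d
    induction d with
    | zero => intro i _ h1 h2; omega
    | succ d ih =>
      intro i hi h1 h2
      have hj := hσ.lt i hi
      -- inside the arc σ and τ agree away from fixed points
      have hin : ∀ k, i < k → k < σ i → σ k ≠ k → τ k = σ k := by
        intro k hk1 hk2 hk3
        have hkN : k < N := by omega
        obtain ⟨ha, hb⟩ := hσ.inside hi hk1 hk2
        rcases Nat.lt_or_ge k (σ k) with hlt | hge
        · exact ih k hkN hlt (by omega)
        · have hlt : σ k < k := by omega
          have hk' := hσ.inv k hkN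
          have := ih (σ k) (by omega) (by rw [hk']; exact hlt) (by rw [hk']; omega)
          rw [hk'] at this
          have h5 := hτ.inv (σ k) (by omega)
          rw [this] at h5
          exact h5
      have hti : i < τ i := (ho i hi).1 h1
      have htN := hτ.lt i hi
      have hfix : ∀ k, k < N → (σ k = k ↔ τ k = k) := by
        intro k hk
        have a1 := ho k hk
        have a2 := hc k hk
        constructor
        · intro h
          by_contra hne
          rcases Nat.lt_or_gt_of_ne hne with h3 | h3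
          · have := a2.2 h3; omega
          · have := a1.2 h3; omega
        · intro h
          by_contra hne
          rcases Nat.lt_or_gt_of_ne hne with h3 | h3
          · have := a2.1 h3; omega
          · have := a1.1 h3; omega
      -- τ i is not strictly inside
      have hge : σ i ≤ τ i := by
        by_contra hlt
        have hlt' : τ i < σ i := by omega
        have hk := hτ.inv i hi
        have hns : σ (τ i) ≠ τ i := by
          intro he
          have := (hfix (τ i) htN).1 he
          omega
        have h6 := hin (τ i) hti hlt' hns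
        obtain ⟨ha, hb⟩ := hσ.inside hi hti hlt'
        omega
      have hjs := hσ.inv i hi
      have htj : τ (σ i) < σ i := (hc (σ i) hj).1 (by rw [hjs]; exact h1)
      have htjN := hτ.lt (σ i) hj
      have hle : τ (σ i) ≤ i := by
        by_contra hgt
        have hgt' : i < τ (σ i) := by omega
        have hk := hτ.inv (σ i) hj
        have hns : σ (τ (σ i)) ≠ τ (σ i) := by
          intro he
          have := (hfix (τ (σ i)) htjN).1 he
          omega
        have h6 := hin (τ (σ i)) hgt' htj hns
        obtain ⟨ha, hb⟩ := hσ.inside hi hgt' htj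
        omega
      by_contra hne
      have hlt1 : σ i < τ i := by omega
      have hk := hτ.inv (σ i) hj
      have hne2 : τ (σ i) ≠ i := by
        intro he
        rw [he] at hk
        omega
      exact hτ.nc (τ (σ i)) i htjN hi (by omega) (by rw [hk]; exact h1) (by rw [hk]; exact hlt1)
  intro k hk
  rcases Nat.lt_trichotomy k (σ k) with h | h | h
  · exact (key _ k hk h le_rfl).symm
  · by_contra hne
    have a1 := ho k hk
    have a2 := hc k hk
    rcases Nat.lt_trichotomy k (τ k) with h3 | h3 | h3
    · have := a1.2 h3; omega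
    · omega
    · have := a2.2 h3; omega
  · have hk' := hσ.inv k hk
    have hN := hσ.lt k hk
    have := key _ (σ k) hN (by rw [hk']; exact h) le_rfl
    rw [hk'] at this
    have h5 := hτ.inv (σ k) hN
    rw [this] at h5
    exact h5.symm

/-- `+1` at openers, `-1` at closers, `0` at fixed points -/
noncomputable def stp (σ : ℕ → ℕ) (k : ℕ) : SignType := SignType.sign ((σ k : ℤ) - k)

theorem stp_eq_one {σ : ℕ → ℕ} {k : ℕ} : stp σ k = 1 ↔ k < σ k := by
  unfold stp
  rw [sign_eq_one_iff]
  omega

theorem stp_eq_neg_one {σ : ℕ → ℕ} {k : ℕ} : stp σ k = -1 ↔ σ k < k := by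
  unfold stp
  rw [sign_eq_neg_one_iff]
  omega

theorem stp_eq_zero {σ : ℕ → ℕ} {k : ℕ} : stp σ k = 0 ↔ σ k = k := by
  unfold stp
  rw [sign_eq_zero_iff]
  omega

theorem sum_stp (σ : ℕ → ℕ) (A : Finset ℕ) :
    ∑ k ∈ A, ((stp σ k : SignType) : ℤ) =
      ((A.filter (fun k => k < σ k)).card : ℤ) - ((A.filter (fun k => σ k < k)).card : ℤ) := by
  rw [Finset.card_filter, Finset.card_filter]
  push_cast
  rw [← Finset.sum_sub_distrib]
  refine Finset.sum_congr rfl ?_
  intro k _
  rcases Nat.lt_trichotomy k (σ k) with h | h | h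
  · rw [stp_eq_one.2 h, if_pos h, if_neg (by omega)]; rfl
  · rw [stp_eq_zero.2 h.symm, if_neg (by omega), if_neg (by omega)]; rfl
  · rw [stp_eq_neg_one.2 h, if_neg (by omega), if_pos h]; rfl

theorem sum_nonneg {N : ℕ} {σ : ℕ → ℕ} (h : NC N σ) (A : Finset ℕ) (hA : ∀ k ∈ A, k < N)
    (hc : ∀ k ∈ A, σ k < k → σ k ∈ A) : 0 ≤ ∑ k ∈ A, ((stp σ k : SignType) : ℤ) := by
  rw [sum_stp]
  have : (A.filter (fun k => σ k < k)).card ≤ (A.filter (fun k => k < σ k)).card := by
    refine Finset.card_le_card_of_injOn σ ?_ ?_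
    · intro k hk
      have hk' : k ∈ A ∧ σ k < k := by simpa using hk
      have h2 : σ k ∈ A ∧ σ k < σ (σ k) := ⟨hc k hk'.1 hk'.2, by
        rw [h.inv k (hA k hk'.1)]; exact hk'.2⟩
      simpa using h2
    · intro a ha b hb hab
      have ha' : a ∈ A ∧ σ a < a := by simpa using ha
      have hb' : b ∈ A ∧ σ b < b := by simpa using hb
      exact h.inj (hA a ha'.1) (hA b hb'.1) hab
  omega

theorem sum_nonpos {N : ℕ} {σ : ℕ → ℕ} (h : NC N σ) (A : Finset ℕ) (hA : ∀ k ∈ A, k < N)
    (hc : ∀ k ∈ A, k < σ k → σ k ∈ A) : ∑ k ∈ A, ((stp σ k : SignType) : ℤ) ≤ 0 := by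
  rw [sum_stp]
  have : (A.filter (fun k => k < σ k)).card ≤ (A.filter (fun k => σ k < k)).card := by
    refine Finset.card_le_card_of_injOn σ ?_ ?_
    · intro k hk
      have hk' : k ∈ A ∧ k < σ k := by simpa using hk
      have h2 : σ k ∈ A ∧ σ (σ k) < σ k := ⟨hc k hk'.1 hk'.2, by
        rw [h.inv k (hA k hk'.1)]; exact hk'.2⟩
      simpa using h2
    · intro a ha b hb hab
      have ha' : a ∈ A ∧ a < σ a := by simpa using ha
      have hb' : b ∈ A ∧ b < σ b := by simpa using hb
      exact h.inj (hA a ha'.1) (hA b hb'.1) hab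
  omega

/-- A block whose word is balanced is closed under the involution. -/
theorem block_closed {N : ℕ} {σ : ℕ → ℕ} (h : NC N σ) {p q : ℕ} (hq : q ≤ N)
    (hpos : ∀ r, p ≤ r → r ≤ q → 0 ≤ ∑ k ∈ Finset.Ico p r, ((stp σ k : SignType) : ℤ))
    (htot : ∑ k ∈ Finset.Ico p q, ((stp σ k : SignType) : ℤ) = 0) :
    ∀ k, p ≤ k → k < q → p ≤ σ k ∧ σ k < q := by
  intro i hpi hiq
  have hiN : i < N := by omega
  have hsi := h.lt i hiN
  constructor
  · by_contra hlt
    have hlt' : σ i < p := by omega
    have hii := h.inv i hiN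
    have hA : ∑ k ∈ Finset.Ico p i, ((stp σ k : SignType) : ℤ) ≤ 0 := by
      refine sum_nonpos h _ (fun k hk => ?_) (fun k hk hk2 => ?_)
      · have := Finset.mem_Ico.1 hk; omega
      · have hk' := Finset.mem_Ico.1 hk
        have := h.inside hsi (i := σ i) (k := k) (by omega) (by rw [hii]; omega)
        rw [hii] at this
        exact Finset.mem_Ico.2 ⟨by omega, this.2⟩
    have h2 := hpos (i + 1) (by omega) (by omega)
    rw [Finset.sum_Ico_succ_top (by omega)] at h2
    have h3 : stp σ i = -1 := stp_eq_neg_one.2 (by omega)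
    rw [h3] at h2
    have h4 : (((-1 : SignType)) : ℤ) = -1 := rfl
    rw [h4] at h2
    omega
  · by_contra hge
    have hge' : q ≤ σ i := by omega
    have hA : 0 ≤ ∑ k ∈ Finset.Ico (i + 1) q, ((stp σ k : SignType) : ℤ) := by
      refine sum_nonneg h _ (fun k hk => ?_) (fun k hk hk2 => ?_)
      · have := Finset.mem_Ico.1 hk; omega
      · have hk' := Finset.mem_Ico.1 hk
        have := h.inside hiN (k := k) (by omega) (by omega)
        exact Finset.mem_Ico.2 ⟨by omega, by omega⟩
    have h1 := hpos i hpi (by omega)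
    have h3 : stp σ i = 1 := stp_eq_one.2 (by omega)
    have h4 : (((1 : SignType)) : ℤ) = 1 := rfl
    rw [← Finset.sum_Ico_consecutive _ (show p ≤ i from hpi) (show i ≤ q by omega),
      Finset.sum_eq_sum_Ico_succ_bot (show i < q by omega), h3, h4] at htot
    omega

end Pool.Agent.Helper976.Stamp
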