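import Mathlib

/-!
# Words over pairs of signs: inserting excursions into the gaps of a word without excursions
-/

namespace Pool.Agent.Helper976.Stamp

/-- letters: the type (opener `1`, closer `-1`, unmatched `0`) of a point in the two matchings -/
abbrev Lt := SignType × SignType

def H1 (e : List Lt) : ℤ := (e.map (fun x => ((x.1 : SignType) : ℤ))).sum
def H2 (e : List Lt) : ℤ := (e.map (fun x => ((x.2 : SignType) : ℤ))).sum

@[simp] theorem H1_nil : H1 [] = 0 := rfl
@[simp] theorem H2_nil : H2 [] = 0 := rfl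
@[simp] theorem H1_cons (x : Lt) (l : List Lt) : H1 (x :: l) = (x.1 : ℤ) + H1 l := by
  simp [H1]
@[simp] theorem H2_cons (x : Lt) (l : List Lt) : H2 (x :: l) = (x.2 : ℤ) + H2 l := by
  simp [H2]
@[simp] theorem H1_append (a b : List Lt) : H1 (a ++ b) = H1 a + H1 b := by
  simp [H1]
@[simp] theorem H2_append (a b : List Lt) : H2 (a ++ b) = H2 a + H2 b := by
  simp [H2]

/-- excursions: both coordinates are balanced words of openers and closers -/
structure Exc (e : List Lt) : Prop where
  ns : ∀ x ∈ e, x.1 ≠ 0 ∧ x.2 ≠ 0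
  pre1 : ∀ v, v <+: e → 0 ≤ H1 v
  pre2 : ∀ v, v <+: e → 0 ≤ H2 v
  tot1 : H1 e = 0
  tot2 : H2 e = 0

def Avoid (w : List Lt) : Prop := ∀ x e y, w = x ++ e ++ y → Exc e → e = []

theorem Avoid.tail {x : Lt} {w : List Lt} (h : Avoid (x :: w)) : Avoid w := by
  intro a e y he hexc
  exact h (x :: a) e y (by simp [he]) hexc

def ins : List Lt → (ℕ → List Lt) → List Lt
  | [], f => f 0
  | x :: w, f => f 0 ++ x :: ins w (fun i => f (i + 1))

theorem prefix_append_cases {z a b : List Lt} (h : z <+: a ++ b) :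
    z <+: a ∨ ∃ t, z = a ++ t ∧ t <+: b := by
  obtain ⟨r, hr⟩ := h
  rcases List.append_eq_append_iff.1 hr with ⟨c, h1, h2⟩ | ⟨c, h1, h2⟩
  · left; exact ⟨c, h1.symm⟩
  · right; exact ⟨c, h1, ⟨r, h2.symm⟩⟩

theorem prefix_structure (w : List Lt) : ∀ (f : ℕ → List Lt) (z : List Lt),
    (∀ i, Exc (f i)) → z <+: ins w f →
    ∃ v, v <+: w ∧ ∃ e', (∃ i, e' <+: f i) ∧ H1 z = H1 v + H1 e' ∧ H2 z = H2 v + H2 e' ∧
      (∀ v', v' <+: v → ∃ z', z' <+: z ∧ H1 z' = H1 v' ∧ H2 z' = H2 v') ∧ (∀ a ∈ v, a ∈ z) := by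
  induction w with
  | nil =>
    intro f z hf hz
    refine ⟨[], List.prefix_rfl, z, ⟨0, hz⟩, by simp, by simp, ?_, by simp⟩
    intro v' hv'
    refine ⟨[], List.nil_prefix, ?_⟩
    have : v' = [] := List.prefix_nil.1 hv'
    simp [this]
  | cons x w ih =>
    intro f z hf hz
    rcases prefix_append_cases hz with h | ⟨t, ht, htp⟩
    · refine ⟨[], List.nil_prefix, z, ⟨0, h⟩, by simp, by simp, ?_, by simp⟩
      intro v' hv'
      refine ⟨[], List.nil_prefix, ?_⟩
      have : v' = [] := List.prefix_nil.1 hv'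
      simp [this]
    · rcases List.prefix_cons_iff.1 htp with h0 | ⟨z1, hz1, hz1p⟩
      · subst h0
        refine ⟨[], List.nil_prefix, f 0, ⟨0, List.prefix_rfl⟩, by simp [ht], by simp [ht], ?_,
          by simp⟩
        intro v' hv'
        refine ⟨[], List.nil_prefix, ?_⟩
        have : v' = [] := List.prefix_nil.1 hv'
        simp [this]
      · obtain ⟨v, hv, e', ⟨i, hi⟩, a1, a2, a3, a4⟩ := ih (fun i => f (i + 1)) z1
          (fun i => hf (i + 1)) hz1p
        refine ⟨x :: v, (List.prefix_cons_inj x).2 hv, e', ⟨i + 1, hi⟩, ?_, ?_, ?_, ?_⟩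
        · rw [ht, hz1]; simp [(hf 0).tot1, a1]; ring
        · rw [ht, hz1]; simp [(hf 0).tot2, a2]; ring
        · intro v' hv'
          rcases List.prefix_cons_iff.1 hv' with h0 | ⟨v1, hv1, hv1p⟩
          · exact ⟨[], List.nil_prefix, by simp [h0], by simp [h0]⟩
          · obtain ⟨z', hz', b1, b2⟩ := a3 v1 hv1p
            refine ⟨f 0 ++ x :: z', ?_, ?_, ?_⟩
            · rw [ht, hz1]
              exact (List.prefix_append_right_inj _).2 ((List.prefix_cons_inj x).2 hz')
            · rw [hv1]; simp [(hf 0).tot1, b1]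
            · rw [hv1]; simp [(hf 0).tot2, b2]
        · intro a ha
          rw [ht, hz1]
          rcases List.mem_cons.1 ha with h | h
          · simp [h]
          · simp [a4 a h]

/-- no nonempty excursion is a prefix of a word that starts with a letter of an avoiding word -/
theorem no_exc_prefix {x : Lt} {w : List Lt} {f : ℕ → List Lt} {z : List Lt}
    (hw : Avoid (x :: w)) (hf : ∀ i, Exc (f i)) (hz : z <+: x :: ins w f) (he : Exc z) :
    z = [] := by
  by_contra hne
  rcases List.prefix_cons_iff.1 hz with h0 | ⟨z1, hz1, hz1p⟩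
  · exact hne h0
  · obtain ⟨v, hv, e', ⟨i, hi⟩, a1, a2, a3, a4⟩ := prefix_structure w f z1 hf hz1p
    have hpre : ∀ v', v' <+: x :: v → 0 ≤ H1 v' ∧ 0 ≤ H2 v' := by
      intro v' hv'
      rcases List.prefix_cons_iff.1 hv' with h0 | ⟨v1, hv1, hv1p⟩
      · simp [h0]
      · obtain ⟨z', hz', b1, b2⟩ := a3 v1 hv1p
        have hp : x :: z' <+: z := by rw [hz1]; exact (List.prefix_cons_inj x).2 hz'
        have c1 := he.pre1 _ hp
        have c2 := he.pre2 _ hp
        rw [H1_cons, b1] at c1
        rw [H2_cons, b2] at c2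
        rw [hv1, H1_cons, H2_cons]
        exact ⟨c1, c2⟩
    have t1 := he.tot1
    have t2 := he.tot2
    rw [hz1, H1_cons, a1] at t1
    rw [hz1, H2_cons, a2] at t2
    have e1 := (hf i).pre1 _ hi
    have e2 := (hf i).pre2 _ hi
    have p := hpre (x :: v) List.prefix_rfl
    rw [H1_cons, H2_cons] at p
    have hexc : Exc (x :: v) := by
      refine ⟨?_, fun v' h => (hpre v' h).1, fun v' h => (hpre v' h).2, ?_, ?_⟩
      · intro a ha
        apply he.ns
        rw [hz1]
        rcases List.mem_cons.1 ha with h | h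
        · simp [h]
        · simp [a4 a h]
      · rw [H1_cons]; omega
      · rw [H2_cons]; omega
    obtain ⟨y, hy⟩ := hv
    have := hw [] (x :: v) y (by simp [hy]) hexc
    simp at this

theorem exc_of_append {a c : List Lt} (ha : Exc a) (hac : Exc (a ++ c)) : Exc c := by
  refine ⟨fun x hx => hac.ns x (by simp [hx]), ?_, ?_, ?_, ?_⟩
  · intro v hv
    have := hac.pre1 (a ++ v) ((List.prefix_append_right_inj _).2 hv)
    rw [H1_append, ha.tot1] at this
    omega
  · intro v hv
    have := hac.pre2 (a ++ v) ((List.prefix_append_right_inj _).2 hv)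
    rw [H2_append, ha.tot2] at this
    omega
  · have := hac.tot1
    rw [H1_append, ha.tot1] at this
    omega
  · have := hac.tot2
    rw [H2_append, ha.tot2] at this
    omega

theorem ins_inj (w : List Lt) : ∀ (w' : List Lt) (f f' : ℕ → List Lt), Avoid w → Avoid w' →
    w.length = w'.length → (∀ i, Exc (f i)) → (∀ i, Exc (f' i)) → ins w f = ins w' f' →
    w = w' ∧ ∀ i, i ≤ w.length → f i = f' i := by
  induction w with
  | nil =>
    intro w' f f' _ _ hl _ _ h
    have : w' = [] := List.eq_nil_of_length_eq_zero (by simpa using hl.symm)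
    subst this
    refine ⟨rfl, ?_⟩
    intro i hi
    have : i = 0 := by simpa using hi
    subst this
    exact h
  | cons x w ih =>
    intro w' f f' hw hw' hl hf hf' h
    cases w' with
    | nil => simp at hl
    | cons x' w' =>
      have h' : f 0 ++ x :: ins w (fun i => f (i + 1)) =
          f' 0 ++ x' :: ins w' (fun i => f' (i + 1)) := h
      have main : f 0 = f' 0 := by
        rcases List.append_eq_append_iff.1 h' with ⟨c, h1, h2⟩ | ⟨c, h1, h2⟩
        · have hc : Exc c := exc_of_append (hf 0) (by rw [← h1]; exact hf' 0)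
          have : c = [] := no_exc_prefix hw (fun i => hf (i + 1)) (z := c) ⟨_, h2.symm⟩ hc
          rw [h1, this]; simp
        · have hc : Exc c := exc_of_append (hf' 0) (by rw [← h1]; exact hf 0)
          have : c = [] := no_exc_prefix hw' (fun i => hf' (i + 1)) (z := c) ⟨_, h2.symm⟩ hc
          rw [h1, this]; simp
      rw [main] at h'
      have h3 := List.append_cancel_left h'
      obtain ⟨hx, h4⟩ := List.cons.inj h3
      obtain ⟨hww, hff⟩ := ih w' _ _ hw.tail hw'.tail (by simpa using hl) (fun i => hf (i + 1))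
        (fun i => hf' (i + 1)) h4
      refine ⟨by rw [hx, hww], ?_⟩
      intro i hi
      cases i with
      | zero => exact main
      | succ i => exact hff i (by simpa using hi)

end Pool.Agent.Helper976.Stamp
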