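import Mathlib
import Pool.Agent.Helper976_Stamp.Part1
import Pool.Agent.Helper976_Stamp.Part2

/-!
# The two matchings of a folded state and its word
-/

namespace Pool.Agent.Helper976.Stamp

/-- the pairs `{a, b}` and `{c, d}` interleave, and the first one starts lower -/
def Cross (a b c d : ℕ) : Prop := min a b < min c d ∧ min c d < max a b ∧ max a b < max c d

/-- a folded state (`f`: heights of the segments, `g`: segments at the heights) -/
structure Fold (n : ℕ) (f g : ℕ → ℕ) : Prop where
  hf : ∀ i, i ≤ n → f i ≤ n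
  hg : ∀ p, p ≤ n → g p ≤ n
  gf : ∀ i, i ≤ n → g (f i) = i
  fg : ∀ p, p ≤ n → f (g p) = p
  nc : ∀ i j, i < n → j < n → i ≠ j → i % 2 = j % 2 → ¬ Cross (f i) (f (i + 1)) (f j) (f (j + 1))

def P (n b i : ℕ) : ℕ := if (i + b) % 2 = 0 then (if i < n then i + 1 else i) else i - 1

def sg (n : ℕ) (f g : ℕ → ℕ) (b p : ℕ) : ℕ := f (P n b (g p))

theorem P_le {n b i : ℕ} (h : i ≤ n) : P n b i ≤ n := by
  unfold P; split_ifs <;> omega

theorem P_P {n b i : ℕ} (h : i ≤ n) : P n b (P n b i) = i := by
  unfold P; split_ifs <;> omega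

theorem P_cases {n b i : ℕ} (h : i ≤ n) : P n b i = i ∨ ∃ k, k < n ∧ (k + b) % 2 = 0 ∧
    ((i = k ∧ P n b i = k + 1) ∨ (i = k + 1 ∧ P n b i = k)) := by
  unfold P
  split_ifs with h1 h2
  · right; exact ⟨i, h2, h1, Or.inl ⟨rfl, rfl⟩⟩
  · left; rfl
  · rcases Nat.eq_zero_or_pos i with h0 | h0
    · left; omega
    · right; exact ⟨i - 1, by omega, by omega, Or.inr ⟨by omega, rfl⟩⟩

theorem Fold.nc' {n : ℕ} {f g : ℕ → ℕ} (h : Fold n f g) (b : ℕ) : NC (n + 1) (sg n f g b) := by
  refine ⟨?_, ?_, ?_⟩
  · intro k hk
    have := h.hf _ (P_le (b := b) (h.hg k (by omega)))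
    unfold sg; omega
  · intro k hk
    unfold sg
    rw [h.gf _ (P_le (h.hg k (by omega))), P_P (h.hg k (by omega)), h.fg k (by omega)]
  · intro i j hi hj hij hjs hss
    unfold sg at hjs hss
    have hi' := h.fg i (by omega)
    have hj' := h.fg j (by omega)
    have hgi := h.hg i (by omega)
    have hgj := h.hg j (by omega)
    rcases P_cases (b := b) hgi with h1 | ⟨k, hk, hkb, h1⟩
    · rw [h1] at hjs; omega
    rcases P_cases (b := b) hgj with h2 | ⟨k', hk', hkb', h2⟩
    · rw [h2] at hss; omega
    have hkk : k ≠ k' := by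
      intro he
      subst he
      rcases h1 with ⟨a1, a2⟩ | ⟨a1, a2⟩ <;> rcases h2 with ⟨b1, b2⟩ | ⟨b1, b2⟩ <;>
        rw [a2] at hjs hss <;> rw [b2] at hss <;> rw [a1] at hi' <;> rw [b1] at hj' <;> omega
    refine h.nc k k' hk hk' hkk (by omega) ?_
    unfold Cross
    rcases h1 with ⟨a1, a2⟩ | ⟨a1, a2⟩ <;> rcases h2 with ⟨b1, b2⟩ | ⟨b1, b2⟩ <;>
      rw [a2] at hjs hss <;> rw [b2] at hss <;> rw [a1] at hi' <;> rw [b1] at hj' <;> omega

noncomputable def letter (n : ℕ) (f g : ℕ → ℕ) (p : ℕ) : Lt :=
  (stp (sg n f g 0) p, stp (sg n f g 1) p)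

noncomputable def word (n : ℕ) (f g : ℕ → ℕ) : List Lt := (List.range (n + 1)).map (letter n f g)

theorem word_length (n : ℕ) (f g : ℕ → ℕ) : (word n f g).length = n + 1 := by
  simp [word]

theorem getElem_factor {F : ℕ → Lt} {m : ℕ} {x e y : List Lt}
    (h : (List.range m).map F = x ++ e ++ y) (k : ℕ) (hk : k < e.length) :
    e[k] = F (x.length + k) := by
  have hlen := congrArg List.length h
  simp at hlen
  have h1 : ((List.range m).map F)[x.length + k]? = (x ++ e ++ y)[x.length + k]? := by rw [h]
  rw [List.append_assoc, List.getElem?_append_right (by omega)] at h1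
  have h2 : x.length + k - x.length = k := by omega
  rw [h2, List.getElem?_append_left hk, List.getElem?_map, List.getElem?_range (by omega),
    List.getElem?_eq_getElem hk] at h1
  simpa using h1.symm

theorem H1_take {F : ℕ → Lt} {m : ℕ} {x e y : List Lt}
    (h : (List.range m).map F = x ++ e ++ y) (r : ℕ) (hr : r ≤ e.length) :
    H1 (e.take r) = ∑ k ∈ Finset.Ico x.length (x.length + r), (((F k).1 : SignType) : ℤ) := by
  induction r with
  | zero => simp
  | succ r ih =>
    have hlt : r < e.length := by omega
    rw [List.take_succ_eq_append_getElem hlt, H1_append, ih (by omega), ← add_assoc,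
      Finset.sum_Ico_succ_top (by omega), getElem_factor h r hlt]
    simp

theorem H2_take {F : ℕ → Lt} {m : ℕ} {x e y : List Lt}
    (h : (List.range m).map F = x ++ e ++ y) (r : ℕ) (hr : r ≤ e.length) :
    H2 (e.take r) = ∑ k ∈ Finset.Ico x.length (x.length + r), (((F k).2 : SignType) : ℤ) := by
  induction r with
  | zero => simp
  | succ r ih =>
    have hlt : r < e.length := by omega
    rw [List.take_succ_eq_append_getElem hlt, H2_append, ih (by omega), ← add_assoc,
      Finset.sum_Ico_succ_top (by omega), getElem_factor h r hlt]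
    simp

theorem Fold.avoid {n : ℕ} {f g : ℕ → ℕ} (h : Fold n f g) : Avoid (word n f g) := by
  intro x e y hw he
  by_contra hne
  unfold word at hw
  have hlen := congrArg List.length hw
  simp at hlen
  have hpos : 0 < e.length := List.length_pos_iff.2 hne
  -- closure of the block under both matchings
  have hcl : ∀ b, b < 2 → ∀ k, x.length ≤ k → k < x.length + e.length →
      (x.length ≤ sg n f g b k ∧ sg n f g b k < x.length + e.length) ∧ sg n f g b k ≠ k := by
    intro b hb
    have hns : ∀ k, x.length ≤ k → k < x.length + e.length → sg n f g b k ≠ k := by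
      intro k hk1 hk2 heq
      have h1 := getElem_factor hw (k - x.length) (by omega)
      have h2 : x.length + (k - x.length) = k := by omega
      rw [h2] at h1
      have h3 := he.ns _ (List.getElem_mem (l := e) (n := k - x.length) (by omega))
      rw [h1] at h3
      have h4 : stp (sg n f g b) k = 0 := stp_eq_zero.2 heq
      interval_cases b
      · exact h3.1 h4
      · exact h3.2 h4
    intro k hk1 hk2
    refine ⟨?_, hns k hk1 hk2⟩
    refine block_closed (h.nc' b) (by omega) ?_ ?_ k hk1 hk2
    · intro r hr1 hr2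
      interval_cases b
      · have h1 := H1_take hw (r - x.length) (by omega)
        have h2 : x.length + (r - x.length) = r := by omega
        rw [h2] at h1
        have h3 := he.pre1 _ (List.take_prefix (r - x.length) e)
        rw [h1] at h3
        exact h3
      · have h1 := H2_take hw (r - x.length) (by omega)
        have h2 : x.length + (r - x.length) = r := by omega
        rw [h2] at h1
        have h3 := he.pre2 _ (List.take_prefix (r - x.length) e)
        rw [h1] at h3
        exact h3
    · interval_cases b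
      · have h1 := H1_take hw e.length le_rfl
        rw [List.take_length, he.tot1] at h1
        exact h1.symm
      · have h1 := H2_take hw e.length le_rfl
        rw [List.take_length, he.tot2] at h1
        exact h1.symm
  obtain ⟨k, hk, hmax⟩ := Finset.exists_max_image (Finset.Ico x.length (x.length + e.length)) g
    ⟨x.length, Finset.mem_Ico.2 ⟨le_rfl, by omega⟩⟩
  have hk' := Finset.mem_Ico.1 hk
  have hgk := h.hg k (by omega)
  obtain ⟨⟨c1, c2⟩, c3⟩ := hcl (g k % 2) (by omega) k hk'.1 hk'.2
  unfold sg at c1 c2 c3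
  have hP : P n (g k % 2) (g k) = if g k < n then g k + 1 else g k := by
    unfold P; rw [if_pos (by omega)]
  rw [hP] at c1 c2 c3
  by_cases hlt : g k < n
  · rw [if_pos hlt] at c1 c2 c3
    have := hmax (f (g k + 1)) (Finset.mem_Ico.2 ⟨c1, c2⟩)
    rw [h.gf _ (by omega)] at this
    omega
  · rw [if_neg hlt, h.fg k (by omega)] at c3
    exact c3 rfl

theorem Fold.inj {n : ℕ} {f g f' g' : ℕ → ℕ} (h : Fold n f g) (h' : Fold n f' g')
    (hw : word n f g = word n f' g') (h0 : f 0 = f' 0) : ∀ i, i ≤ n → f i = f' i := by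
  have hl : ∀ p, p < n + 1 → letter n f g p = letter n f' g' p := by
    intro p hp
    unfold word at hw
    exact (List.map_inj_left.1 hw) p (List.mem_range.2 hp)
  have hs : ∀ b, b < 2 → ∀ p, p < n + 1 → sg n f g b p = sg n f' g' b p := by
    intro b hb
    have hstp : ∀ p, p < n + 1 → stp (sg n f g b) p = stp (sg n f' g' b) p := by
      intro p hp
      have := hl p hp
      unfold letter at this
      interval_cases b
      · exact congrArg Prod.fst this
      · exact congrArg Prod.snd this
    refine (h.nc' b).unique (h'.nc' b) ?_ ?_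
    · intro k hk
      rw [← stp_eq_one, ← stp_eq_one, hstp k hk]
    · intro k hk
      rw [← stp_eq_neg_one, ← stp_eq_neg_one, hstp k hk]
  intro i
  induction i with
  | zero => intro _; exact h0
  | succ i ih =>
    intro hi
    have ih' := ih (by omega)
    have hP : P n (i % 2) i = i + 1 := by
      unfold P; rw [if_pos (by omega), if_pos (by omega)]
    have h1 : sg n f g (i % 2) (f i) = f (i + 1) := by
      unfold sg; rw [h.gf i (by omega), hP]
    have h2 : sg n f' g' (i % 2) (f' i) = f' (i + 1) := by
      unfold sg; rw [h'.gf i (by omega), hP]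
    rw [← h1, ← h2, ← ih']
    exact hs _ (by omega) _ (by have := h.hf i (by omega); omega)

/-- every point other than the two ends is matched on both sides -/
theorem Fold.letter_ne {n : ℕ} {f g : ℕ → ℕ} (h : Fold n f g) {p : ℕ} (hp : p < n + 1)
    (h0 : p ≠ f 0) (hn : p ≠ f n) : (letter n f g p).1 ≠ 0 ∧ (letter n f g p).2 ≠ 0 := by
  have hfg := h.fg p (by omega)
  have hg := h.hg p (by omega)
  have hg0 : g p ≠ 0 := by
    intro he; rw [he] at hfg; exact h0 hfg.symm
  have hgn : g p ≠ n := by
    intro he; rw [he] at hfg; exact hn hfg.symm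
  have key : ∀ b, sg n f g b p ≠ p := by
    intro b he
    unfold sg at he
    have h2 : g (f (P n b (g p))) = g p := by rw [he]
    rw [h.gf _ (P_le hg)] at h2
    unfold P at h2
    split_ifs at h2 <;> omega
  exact ⟨fun he => key 0 (stp_eq_zero.1 he), fun he => key 1 (stp_eq_zero.1 he)⟩

end Pool.Agent.Helper976.Stamp
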