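import Mathlib
import Pool.Agent.Helper976_Stamp.Part3

/-!
# Weighted counting: pairs of Dyck words as excursions, Kraft type inequality
-/

namespace Pool.Agent.Helper976.Stamp

open DyckStep

/-- sign of a Dyck step -/
def ss : DyckStep → SignType
  | U => 1
  | D => -1

theorem ss_ne (s : DyckStep) : ss s ≠ 0 := by cases s <;> decide

theorem ss_inj : Function.Injective ss := by
  intro a b h
  cases a <;> cases b <;> first | rfl | (exact absurd h (by decide))

theorem sum_ss (l : List DyckStep) :
    (l.map (fun s => ((ss s : SignType) : ℤ))).sum = (l.count U : ℤ) - (l.count D : ℤ) := by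
  induction l with
  | nil => simp
  | cons s l ih =>
    rw [List.map_cons, List.sum_cons, ih]
    cases s
    · have h1 : (ss U : ℤ) = 1 := rfl
      rw [h1, List.count_cons_self, List.count_cons_of_ne (by decide)]
      push_cast; ring
    · have h1 : (ss D : ℤ) = -1 := rfl
      rw [h1, List.count_cons_self, List.count_cons_of_ne (by decide)]
      push_cast; ring

/-- pairs of Dyck words of the same semilength at most `K` -/
abbrev E (K : ℕ) := Σ k : Fin (K + 1),
  ({d : DyckWord // d.semilength = k} × {d : DyckWord // d.semilength = k})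

def toL {K : ℕ} (e : E K) : List Lt :=
  List.zip (e.2.1.1.toList.map ss) (e.2.2.1.toList.map ss)

theorem toL_len1 {K : ℕ} (e : E K) : e.2.1.1.toList.length = 2 * (e.1 : ℕ) := by
  rw [← DyckWord.two_mul_semilength_eq_length, e.2.1.2]

theorem toL_len2 {K : ℕ} (e : E K) : e.2.2.1.toList.length = 2 * (e.1 : ℕ) := by
  rw [← DyckWord.two_mul_semilength_eq_length, e.2.2.2]

theorem toL_length {K : ℕ} (e : E K) : (toL e).length = 2 * (e.1 : ℕ) := by
  unfold toL
  rw [List.length_zip, List.length_map, List.length_map, toL_len1, toL_len2, min_self]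

theorem toL_fst {K : ℕ} (e : E K) : (toL e).map Prod.fst = e.2.1.1.toList.map ss := by
  unfold toL
  exact List.map_fst_zip (by rw [List.length_map, List.length_map, toL_len1, toL_len2])

theorem toL_snd {K : ℕ} (e : E K) : (toL e).map Prod.snd = e.2.2.1.toList.map ss := by
  unfold toL
  exact List.map_snd_zip (by rw [List.length_map, List.length_map, toL_len1, toL_len2])

theorem H1_eq (e : List Lt) : H1 e = ((e.map Prod.fst).map (fun s : SignType => (s : ℤ))).sum := by
  unfold H1; rw [List.map_map]; rfl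

theorem H2_eq (e : List Lt) : H2 e = ((e.map Prod.snd).map (fun s : SignType => (s : ℤ))).sum := by
  unfold H2; rw [List.map_map]; rfl

theorem toL_H1 {K : ℕ} (e : E K) (r : ℕ) : H1 ((toL e).take r) =
    ((e.2.1.1.toList.take r).count U : ℤ) - ((e.2.1.1.toList.take r).count D : ℤ) := by
  rw [H1_eq, List.map_take, toL_fst, ← List.map_take, List.map_map, ← sum_ss]
  rfl

theorem toL_H2 {K : ℕ} (e : E K) (r : ℕ) : H2 ((toL e).take r) =
    ((e.2.2.1.toList.take r).count U : ℤ) - ((e.2.2.1.toList.take r).count D : ℤ) := by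
  rw [H2_eq, List.map_take, toL_snd, ← List.map_take, List.map_map, ← sum_ss]
  rfl

theorem toL_exc {K : ℕ} (e : E K) : Exc (toL e) := by
  refine ⟨?_, ?_, ?_, ?_, ?_⟩
  · intro x hx
    constructor
    · have : x.1 ∈ (toL e).map Prod.fst := List.mem_map.2 ⟨x, hx, rfl⟩
      rw [toL_fst] at this
      obtain ⟨s, _, hs⟩ := List.mem_map.1 this
      rw [← hs]; exact ss_ne s
    · have : x.2 ∈ (toL e).map Prod.snd := List.mem_map.2 ⟨x, hx, rfl⟩
      rw [toL_snd] at this
      obtain ⟨s, _, hs⟩ := List.mem_map.1 this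
      rw [← hs]; exact ss_ne s
  · intro v hv
    rw [List.prefix_iff_eq_take.1 hv, toL_H1]
    have := e.2.1.1.count_D_le_count_U v.length
    omega
  · intro v hv
    rw [List.prefix_iff_eq_take.1 hv, toL_H2]
    have := e.2.2.1.count_D_le_count_U v.length
    omega
  · have h := toL_H1 e (toL e).length
    rw [List.take_length] at h
    rw [h, toL_length, ← toL_len1 e, List.take_length, e.2.1.1.count_U_eq_count_D]
    omega
  · have h := toL_H2 e (toL e).length
    rw [List.take_length] at h
    rw [h, toL_length, ← toL_len2 e, List.take_length, e.2.2.1.count_U_eq_count_D]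
    omega

theorem toL_inj {K : ℕ} : Function.Injective (toL (K := K)) := by
  intro e e' h
  have h1 : e.2.1.1 = e'.2.1.1 := by
    have := congrArg (List.map Prod.fst) h
    rw [toL_fst, toL_fst] at this
    exact DyckWord.ext (List.map_injective_iff.2 ss_inj this)
  have h2 : e.2.2.1 = e'.2.2.1 := by
    have := congrArg (List.map Prod.snd) h
    rw [toL_snd, toL_snd] at this
    exact DyckWord.ext (List.map_injective_iff.2 ss_inj this)
  obtain ⟨k, ⟨d1, hd1⟩, ⟨d2, hd2⟩⟩ := e
  obtain ⟨k', ⟨d1', hd1'⟩, ⟨d2', hd2'⟩⟩ := e'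
  simp only at h1 h2
  subst h1
  subst h2
  have hk : k = k' := Fin.ext (by rw [← hd1, ← hd1'])
  subst hk
  rfl

/-- letter weights -/
noncomputable def wt (t x : ℝ) (a : Lt) : ℝ := if a.1 ≠ 0 ∧ a.2 ≠ 0 then x else t * x

noncomputable def wl (t x : ℝ) (l : List Lt) : ℝ := (l.map (wt t x)).prod

theorem wl_append (t x : ℝ) (a b : List Lt) : wl t x (a ++ b) = wl t x a * wl t x b := by
  simp [wl]

theorem wl_cons (t x : ℝ) (a : Lt) (b : List Lt) : wl t x (a :: b) = wt t x a * wl t x b := by
  simp [wl]

theorem wt_nonneg {t x : ℝ} (ht : 0 ≤ t) (hx : 0 ≤ x) (a : Lt) : 0 ≤ wt t x a := by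
  unfold wt; split_ifs
  · exact hx
  · exact mul_nonneg ht hx

theorem wl_nonneg {t x : ℝ} (ht : 0 ≤ t) (hx : 0 ≤ x) (l : List Lt) : 0 ≤ wl t x l := by
  unfold wl
  apply List.prod_nonneg
  intro a ha
  obtain ⟨b, _, hb⟩ := List.mem_map.1 ha
  rw [← hb]
  exact wt_nonneg ht hx b

theorem wl_ns (t x : ℝ) (l : List Lt) (h : ∀ a ∈ l, a.1 ≠ 0 ∧ a.2 ≠ 0) :
    wl t x l = x ^ l.length := by
  induction l with
  | nil => simp [wl]
  | cons a l ih =>
    rw [wl_cons, ih (fun b hb => h b (by simp [hb])), List.length_cons, pow_succ']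
    unfold wt
    rw [if_pos (h a (by simp))]

theorem wl_ins (t x : ℝ) (w : List Lt) : ∀ f : ℕ → List Lt,
    wl t x (ins w f) = wl t x w * ∏ i ∈ Finset.range (w.length + 1), wl t x (f i) := by
  induction w with
  | nil => intro f; simp [ins, wl]
  | cons a w ih =>
    intro f
    have h : ins (a :: w) f = f 0 ++ a :: ins w (fun i => f (i + 1)) := rfl
    rw [h, wl_append, wl_cons, ih, wl_cons, List.length_cons, Finset.prod_range_succ' _ (w.length + 1)]
    ring

theorem sum_wt (t x : ℝ) : ∑ a : Lt, wt t x a = 4 * x + 5 * (t * x) := by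
  have h : (Finset.univ : Finset Lt) = Finset.univ ×ˢ Finset.univ := by
    exact Finset.univ_product_univ.symm
  have hs : (Finset.univ : Finset SignType) = {0, -1, 1} := by decide
  rw [h, Finset.sum_product, hs]
  have n1 : (-1 : SignType) ≠ 0 := by decide
  have n2 : (1 : SignType) ≠ 0 := by decide
  have m1 : (0 : SignType) ∉ ({-1, 1} : Finset SignType) := by decide
  have m2 : (-1 : SignType) ∉ ({1} : Finset SignType) := by decide
  rw [Finset.sum_insert m1, Finset.sum_insert m2, Finset.sum_singleton,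
    Finset.sum_insert m1, Finset.sum_insert m2, Finset.sum_singleton,
    Finset.sum_insert m1, Finset.sum_insert m2, Finset.sum_singleton,
    Finset.sum_insert m1, Finset.sum_insert m2, Finset.sum_singleton]
  simp only [wt, ne_eq, n1, n2, not_true_eq_false, not_false_eq_true, and_true, and_false,
    if_true, if_false, and_self]
  ring

/-- all words of length `m` -/
noncomputable def Lm : ℕ → Finset (List Lt)
  | 0 => {[]}
  | m + 1 => ((Finset.univ : Finset Lt) ×ˢ Lm m).image (fun p => p.1 :: p.2)

theorem mem_Lm (l : List Lt) : l ∈ Lm l.length := by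
  induction l with
  | nil => simp [Lm]
  | cons a l ih =>
    simp only [List.length_cons, Lm, Finset.mem_image, Finset.mem_product, Finset.mem_univ,
      true_and]
    exact ⟨(a, l), ih, rfl⟩

theorem len_Lm (m : ℕ) : ∀ l : List Lt, l ∈ Lm m → l.length = m := by
  induction m with
  | zero => intro l hl; simp [Lm] at hl; simp [hl]
  | succ m ih =>
    intro l hl
    unfold Lm at hl
    obtain ⟨p, hp, hpl⟩ := Finset.mem_image.1 hl
    rw [← hpl, List.length_cons, ih p.2 (Finset.mem_product.1 hp).2]

theorem sum_Lm (t x : ℝ) (h : 4 * x + 5 * (t * x) = 1) (m : ℕ) : ∑ l ∈ Lm m, wl t x l = 1 := by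
  induction m with
  | zero => simp [Lm, wl]
  | succ m ih =>
    unfold Lm
    rw [Finset.sum_image]
    · rw [Finset.sum_product]
      simp_rw [wl_cons]
      rw [← Finset.sum_mul_sum, ih, sum_wt, h, one_mul]
    · intro a _ b _ hab
      have := List.cons.inj hab
      exact Prod.ext this.1 this.2

theorem kraft {ι : Type*} (S : Finset ι) (t x : ℝ) (ht : 0 ≤ t) (hx : 0 ≤ x)
    (h : 4 * x + 5 * (t * x) = 1) (F : ι → List Lt) (M : ℕ) (hM : ∀ i ∈ S, (F i).length ≤ M)
    (hinj : Set.InjOn F S) : ∑ i ∈ S, wl t x (F i) ≤ M + 1 := by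
  classical
  have h1 : ∑ i ∈ S, wl t x (F i) = ∑ l ∈ S.image F, wl t x l := by
    rw [Finset.sum_image]
    intro a ha b hb hab
    exact hinj ha hb hab
  rw [h1]
  have h2 : S.image F ⊆ (Finset.range (M + 1)).biUnion Lm := by
    intro l hl
    obtain ⟨i, hi, hil⟩ := Finset.mem_image.1 hl
    rw [Finset.mem_biUnion]
    refine ⟨l.length, Finset.mem_range.2 ?_, mem_Lm l⟩
    have := hM i hi
    rw [hil] at this
    omega
  calc ∑ l ∈ S.image F, wl t x l ≤ ∑ l ∈ (Finset.range (M + 1)).biUnion Lm, wl t x l :=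
        Finset.sum_le_sum_of_subset_of_nonneg h2 (fun l _ _ => wl_nonneg ht hx l)
    _ = ∑ m ∈ Finset.range (M + 1), ∑ l ∈ Lm m, wl t x l := by
        refine Finset.sum_biUnion ?_
        intro a _ b _ hab
        refine Finset.disjoint_left.2 ?_
        intro l hla hlb
        exact hab (by rw [← len_Lm a l hla, ← len_Lm b l hlb])
    _ = M + 1 := by
        rw [Finset.sum_congr rfl (fun m _ => sum_Lm t x h m)]
        simp

end Pool.Agent.Helper976.Stamp
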