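import Mathlib
import Pool.Agent.Helper976_Stamp.Part4

/-!
# The counting inequality for stamp foldings
-/

namespace Pool.Agent.Helper976.Stamp

/-- `h i` is the height of the segment `s_i`; creases at the same end do not interleave. -/
def IsFolding (n : ℕ) (h : Equiv.Perm (Fin (n + 1))) : Prop :=
  ∀ i j : Fin n, i ≠ j → (i : ℕ) % 2 = (j : ℕ) % 2 →
    ¬ Cross (h i.castSucc) (h i.succ) (h j.castSucc) (h j.succ)

/-- the number of folded states with `n` creases -/
noncomputable def foldings (n : ℕ) : ℕ := Nat.card {h : Equiv.Perm (Fin (n + 1)) // IsFolding n h}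

def ff {n : ℕ} (h : Equiv.Perm (Fin (n + 1))) (i : ℕ) : ℕ :=
  if hi : i < n + 1 then (h ⟨i, hi⟩ : ℕ) else i

theorem ff_eq {n : ℕ} (h : Equiv.Perm (Fin (n + 1))) (i : Fin (n + 1)) : ff h i = h i := by
  unfold ff
  rw [dif_pos i.2]

theorem fold_of {n : ℕ} {h : Equiv.Perm (Fin (n + 1))} (hh : IsFolding n h) :
    Fold n (ff h) (ff h.symm) := by
  refine ⟨?_, ?_, ?_, ?_, ?_⟩
  · intro i hi
    rw [show i = ((⟨i, by omega⟩ : Fin (n + 1)) : ℕ) from rfl, ff_eq]
    have := (h ⟨i, by omega⟩).2
    omega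
  · intro i hi
    rw [show i = ((⟨i, by omega⟩ : Fin (n + 1)) : ℕ) from rfl, ff_eq]
    have := (h.symm ⟨i, by omega⟩).2
    omega
  · intro i hi
    have h1 : ff h i = h ⟨i, by omega⟩ := ff_eq h ⟨i, by omega⟩
    rw [h1, ff_eq, Equiv.symm_apply_apply]
  · intro i hi
    have h1 : ff h.symm i = h.symm ⟨i, by omega⟩ := ff_eq h.symm ⟨i, by omega⟩
    rw [h1, ff_eq, Equiv.apply_symm_apply]
  · intro i j hi hj hij hpar
    have key := hh ⟨i, hi⟩ ⟨j, hj⟩ (by intro he; exact hij (congrArg Fin.val he)) hpar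
    have e1 : ff h i = h (Fin.castSucc ⟨i, hi⟩) := ff_eq h (Fin.castSucc ⟨i, hi⟩)
    have e2 : ff h (i + 1) = h (Fin.succ ⟨i, hi⟩) := ff_eq h (Fin.succ ⟨i, hi⟩)
    have e3 : ff h j = h (Fin.castSucc ⟨j, hj⟩) := ff_eq h (Fin.castSucc ⟨j, hj⟩)
    have e4 : ff h (j + 1) = h (Fin.succ ⟨j, hj⟩) := ff_eq h (Fin.succ ⟨j, hj⟩)
    rw [e1, e2, e3, e4]
    exact key

noncomputable def wd {n : ℕ} (h : Equiv.Perm (Fin (n + 1))) : List Lt := word n (ff h) (ff h.symm)

theorem wd_inj {n : ℕ} {h h' : Equiv.Perm (Fin (n + 1))} (hh : IsFolding n h)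
    (hh' : IsFolding n h') (hw : wd h = wd h') (h0 : h 0 = h' 0) : h = h' := by
  have key := (fold_of hh).inj (fold_of hh') hw (by
    have h1 : ff h 0 = h 0 := ff_eq h 0
    have h2 : ff h' 0 = h' 0 := ff_eq h' 0
    rw [h1, h2, h0])
  ext i
  rw [← ff_eq h i, ← ff_eq h' i]
  exact key i (by have := i.2; omega)

theorem range_map_prod (F : ℕ → ℝ) (m : ℕ) :
    ((List.range m).map F).prod = ∏ k ∈ Finset.range m, F k := by
  induction m with
  | zero => simp
  | succ m ih => rw [List.range_succ, List.map_append, List.prod_append, ih,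
      Finset.prod_range_succ]; simp

theorem wl_wd {n : ℕ} {h : Equiv.Perm (Fin (n + 1))} (hh : IsFolding n h) {t x : ℝ} (ht : 0 < t)
    (ht1 : t ≤ 1) (hx : 0 < x) : x ^ (n + 1) * t ^ 2 ≤ wl t x (wd h) := by
  have hF := fold_of hh
  unfold wd word wl
  rw [List.map_map, range_map_prod]
  have h1 : ∀ k ∈ Finset.range (n + 1), x * ((if ff h 0 = k then t else 1) *
      (if ff h n = k then t else 1)) ≤ (wt t x ∘ letter n (ff h) (ff h.symm)) k := by
    intro k hk
    have hk' := Finset.mem_range.1 hk
    simp only [Function.comp]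
    by_cases h0 : ff h 0 = k
    · have hb : (if ff h n = k then t else 1) ≤ 1 := by split_ifs <;> linarith
      have hb0 : 0 ≤ (if ff h n = k then t else (1:ℝ)) := by split_ifs <;> linarith
      rw [if_pos h0]
      have h2 : t * x ≤ wt t x (letter n (ff h) (ff h.symm) k) := by
        unfold wt; split_ifs
        · nlinarith
        · exact le_rfl
      calc x * (t * (if ff h n = k then t else 1)) = (t * x) * (if ff h n = k then t else 1) := by
            ring
        _ ≤ (t * x) * 1 := by
            apply mul_le_mul_of_nonneg_left hb (by positivity)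
        _ ≤ _ := by rw [mul_one]; exact h2
    · by_cases hn : ff h n = k
      · rw [if_neg h0, if_pos hn]
        have h2 : t * x ≤ wt t x (letter n (ff h) (ff h.symm) k) := by
          unfold wt; split_ifs
          · nlinarith
          · exact le_rfl
        linarith
      · rw [if_neg h0, if_neg hn]
        have h3 := hF.letter_ne hk' (Ne.symm h0) (Ne.symm hn)
        unfold wt
        rw [if_pos h3]
        linarith
  have h2 : ∏ k ∈ Finset.range (n + 1), (x * ((if ff h 0 = k then t else 1) *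
      (if ff h n = k then t else 1))) ≤
      ∏ k ∈ Finset.range (n + 1), (wt t x ∘ letter n (ff h) (ff h.symm)) k := by
    refine Finset.prod_le_prod ?_ h1
    intro k _
    split_ifs <;> positivity
  refine le_trans (le_of_eq ?_) h2
  rw [Finset.prod_mul_distrib, Finset.prod_mul_distrib, Finset.prod_const, Finset.card_range,
    Finset.prod_ite_eq, Finset.prod_ite_eq, if_pos, if_pos]
  · ring
  · have := hF.hf n le_rfl
    exact Finset.mem_range.2 (by omega)
  · have := hF.hf 0 (by omega)
    exact Finset.mem_range.2 (by omega)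

/-- the excursions put into the gaps -/
def ext {n K : ℕ} (φ : Fin (n + 2) → E K) (i : ℕ) : List Lt :=
  if hi : i < n + 2 then toL (φ ⟨i, hi⟩) else []

theorem exc_nil : Exc [] := by
  refine ⟨by simp, ?_, ?_, rfl, rfl⟩
  · intro v hv; rw [List.prefix_nil.1 hv]; simp
  · intro v hv; rw [List.prefix_nil.1 hv]; simp

theorem ext_exc {n K : ℕ} (φ : Fin (n + 2) → E K) (i : ℕ) : Exc (ext φ i) := by
  unfold ext
  split_ifs
  · exact toL_exc _
  · exact exc_nil

theorem ext_inj {n K : ℕ} {φ φ' : Fin (n + 2) → E K} (h : ∀ i, i ≤ n + 1 → ext φ i = ext φ' i) :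
    φ = φ' := by
  funext i
  have := h i (by have := i.2; omega)
  unfold ext at this
  rw [dif_pos i.2, dif_pos i.2] at this
  exact toL_inj this

theorem ins_length (w : List Lt) : ∀ (f : ℕ → List Lt) (B : ℕ), (∀ i, (f i).length ≤ B) →
    (ins w f).length ≤ w.length + (w.length + 1) * B := by
  induction w with
  | nil => intro f B hB; simpa [ins] using hB 0
  | cons a w ih =>
    intro f B hB
    have h : ins (a :: w) f = f 0 ++ a :: ins w (fun i => f (i + 1)) := rfl
    have h2 := ih (fun i => f (i + 1)) B (fun i => hB (i + 1))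
    have h3 := hB 0
    rw [h, List.length_append, List.length_cons, List.length_cons]
    have h4 : (w.length + 1 + 1) * B = (w.length + 1) * B + B := by ring
    omega

theorem ext_length {n K : ℕ} (φ : Fin (n + 2) → E K) (i : ℕ) : (ext φ i).length ≤ 2 * K := by
  unfold ext
  split_ifs with hi
  · rw [toL_length]
    have := (φ ⟨i, hi⟩).1.2
    omega
  · simp

theorem sum_E (K : ℕ) (t x : ℝ) : ∑ e : E K, wl t x (toL e) =
    ∑ k ∈ Finset.range (K + 1), (catalan k : ℝ) ^ 2 * x ^ (2 * k) := by
  have h1 : ∀ e : E K, wl t x (toL e) = x ^ (2 * (e.1 : ℕ)) := by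
    intro e
    rw [wl_ns t x _ (toL_exc e).ns, toL_length]
  rw [Finset.sum_congr rfl (fun e _ => h1 e), Fintype.sum_sigma, Finset.sum_range]
  refine Finset.sum_congr rfl ?_
  intro k _
  change (∑ _y : ({d : DyckWord // d.semilength = (k : ℕ)} ×
    {d : DyckWord // d.semilength = (k : ℕ)}), x ^ (2 * (k : ℕ))) = _
  rw [Finset.sum_const, Finset.card_univ, Fintype.card_prod,
    DyckWord.card_dyckWord_semilength_eq_catalan, nsmul_eq_mul]
  push_cast
  ring

theorem main_ineq (n K : ℕ) (t x : ℝ) (ht : 0 < t) (ht1 : t ≤ 1) (hx : 0 < x)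
    (h : 4 * x + 5 * (t * x) = 1) :
    (foldings n : ℝ) * (x ^ (n + 1) * t ^ 2) *
      (∑ k ∈ Finset.range (K + 1), (catalan k : ℝ) ^ 2 * x ^ (2 * k)) ^ (n + 2) ≤
    (n + 1) * ((n + 1) + (n + 2) * (2 * K) + 1) := by
  classical
  set H := {h : Equiv.Perm (Fin (n + 1)) // IsFolding n h} with hH
  have hcard : (foldings n : ℝ) = ∑ _h : H, (1 : ℝ) := by
    rw [Finset.sum_const, Finset.card_univ, nsmul_eq_mul, mul_one]
    unfold foldings
    rw [Nat.card_eq_fintype_card]
  have hw : ∀ (u : H) (φ : Fin (n + 2) → E K), wl t x (ins (wd u.1) (ext φ)) =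
      wl t x (wd u.1) * ∏ i : Fin (n + 2), wl t x (toL (φ i)) := by
    intro u φ
    rw [wl_ins]
    congr 1
    unfold wd
    rw [word_length, Finset.prod_range]
    refine Finset.prod_congr rfl ?_
    intro i _
    unfold ext
    rw [dif_pos i.2]
  -- lower bound of the total weight
  have hlow : (foldings n : ℝ) * (x ^ (n + 1) * t ^ 2) *
      (∑ k ∈ Finset.range (K + 1), (catalan k : ℝ) ^ 2 * x ^ (2 * k)) ^ (n + 2) ≤
      ∑ u : H, ∑ φ : Fin (n + 2) → E K, wl t x (ins (wd u.1) (ext φ)) := by
    rw [hcard, Finset.sum_mul, Finset.sum_mul]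
    refine Finset.sum_le_sum ?_
    intro u _
    rw [one_mul, ← sum_E K t x, Fintype.sum_pow]
    rw [Finset.sum_congr rfl (fun φ _ => hw u φ), ← Finset.mul_sum]
    refine mul_le_mul_of_nonneg_right (wl_wd u.2 ht ht1 hx) ?_
    refine Finset.sum_nonneg ?_
    intro φ _
    refine Finset.prod_nonneg ?_
    intro i _
    exact wl_nonneg ht.le hx.le _
  -- upper bound by the Kraft inequality for each starting height
  have hup : ∑ u : H, ∑ φ : Fin (n + 2) → E K, wl t x (ins (wd u.1) (ext φ)) ≤
      (n + 1) * ((n + 1) + (n + 2) * (2 * K) + 1) := by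
    rw [← Fintype.sum_prod_type']
    have hfib : ∑ p : H × (Fin (n + 2) → E K), wl t x (ins (wd p.1.1) (ext p.2)) =
        ∑ s : Fin (n + 1), ∑ p ∈ (Finset.univ : Finset (H × (Fin (n + 2) → E K))).filter
          (fun p => p.1.1 0 = s), wl t x (ins (wd p.1.1) (ext p.2)) := by
      rw [Finset.sum_fiberwise]
    rw [hfib]
    have hone : ∀ s : Fin (n + 1), ∑ p ∈ (Finset.univ : Finset (H × (Fin (n + 2) → E K))).filter
          (fun p => p.1.1 0 = s), wl t x (ins (wd p.1.1) (ext p.2)) ≤
          ((n + 1) + (n + 2) * (2 * K) + 1 : ℝ) := by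
      intro s
      have := kraft ((Finset.univ : Finset (H × (Fin (n + 2) → E K))).filter
          (fun p => p.1.1 0 = s)) t x ht.le hx.le h (fun p => ins (wd p.1.1) (ext p.2))
          ((n + 1) + (n + 2) * (2 * K)) ?_ ?_
      · push_cast at this
        exact this
      · intro p _
        have := ins_length (wd p.1.1) (ext p.2) (2 * K) (ext_length p.2)
        unfold wd at this ⊢
        rw [word_length] at this
        exact this
      · intro p hp q hq hpq
        have hp' : p.1.1 0 = s := by simpa using hp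
        have hq' : q.1.1 0 = s := by simpa using hq
        have hl : (wd p.1.1).length = (wd q.1.1).length := by
          unfold wd; rw [word_length, word_length]
        obtain ⟨h1, h2⟩ := ins_inj (wd p.1.1) (wd q.1.1) (ext p.2) (ext q.2)
          ((fold_of p.1.2).avoid) ((fold_of q.1.2).avoid) hl (ext_exc p.2) (ext_exc q.2) hpq
        have h3 : p.1.1 = q.1.1 := wd_inj p.1.2 q.1.2 h1 (by rw [hp', hq'])
        have h4 : p.2 = q.2 := by
          apply ext_inj
          intro i hi
          refine h2 i ?_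
          unfold wd; rw [word_length]; exact hi
        exact Prod.ext (Subtype.ext h3) h4
    refine le_trans (Finset.sum_le_sum (fun s _ => hone s)) ?_
    rw [Finset.sum_const, Finset.card_univ, Fintype.card_fin, nsmul_eq_mul]
    push_cast
    exact le_rfl
  exact le_trans hlow hup

end Pool.Agent.Helper976.Stamp
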