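import Mathlib
import Pool.Agent.Helper976_Stamp.Part5

/-!
# The growth rate
-/

namespace Pool.Agent.Helper976.Stamp

open Real Filter Topology

theorem cb_sq (m : ℕ) : ((Nat.centralBinom m : ℕ) : ℝ) ^ 2 / 16 ^ m =
    1 / ((2 * m + 1) * Real.Wallis.W m) := by
  induction m with
  | zero => simp [Real.Wallis.W]
  | succ m ih =>
    have h1 : ((m : ℝ) + 1) * (Nat.centralBinom (m + 1) : ℕ) =
        2 * (2 * m + 1) * (Nat.centralBinom m : ℕ) := by
      exact_mod_cast Nat.succ_mul_centralBinom_succ m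
    have hm : (0 : ℝ) < (m : ℝ) + 1 := by positivity
    have h2 : ((Nat.centralBinom (m + 1) : ℕ) : ℝ) =
        2 * (2 * m + 1) * (Nat.centralBinom m : ℕ) / ((m : ℝ) + 1) := by
      field_simp
      linarith
    have hW := Real.Wallis.W_pos m
    rw [Real.Wallis.W_succ]
    have h3 : ((Nat.centralBinom m : ℕ) : ℝ) ^ 2 = 16 ^ m / ((2 * m + 1) * Real.Wallis.W m) := by
      have h16 : (0 : ℝ) < 16 ^ m := by positivity
      rw [div_eq_iff h16.ne'] at ih
      rw [ih]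
      ring
    rw [h2, div_pow, mul_pow, h3, pow_succ]
    push_cast
    field_simp
    ring

theorem sum_closed (m : ℕ) : ∑ k ∈ Finset.range m, (catalan k : ℝ) ^ 2 / 16 ^ k =
    (16 * m + 4) / ((2 * m + 1) * Real.Wallis.W m) - 4 := by
  have key : ∀ m : ℕ, ∑ k ∈ Finset.range m, (catalan k : ℝ) ^ 2 / 16 ^ k =
      (16 * m + 4) * (((Nat.centralBinom m : ℕ) : ℝ) ^ 2 / 16 ^ m) - 4 := by
    intro m
    induction m with
    | zero => simp
    | succ m ih =>
      rw [Finset.sum_range_succ, ih]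
      have h1 : ((m : ℝ) + 1) * (Nat.centralBinom (m + 1) : ℕ) =
          2 * (2 * m + 1) * (Nat.centralBinom m : ℕ) := by
        exact_mod_cast Nat.succ_mul_centralBinom_succ m
      have hc : ((m : ℝ) + 1) * (catalan m : ℕ) = (Nat.centralBinom m : ℕ) := by
        exact_mod_cast succ_mul_catalan_eq_centralBinom m
      have hm : (0 : ℝ) < (m : ℝ) + 1 := by positivity
      have h2 : ((Nat.centralBinom (m + 1) : ℕ) : ℝ) = 2 * (2 * m + 1) * (catalan m : ℕ) := by
        rw [← hc] at h1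
        have : ((m : ℝ) + 1) * ((Nat.centralBinom (m + 1) : ℕ) : ℝ) =
            ((m : ℝ) + 1) * (2 * (2 * m + 1) * (catalan m : ℕ)) := by rw [h1]; ring
        exact mul_left_cancel₀ hm.ne' this
      rw [h2, ← hc, pow_succ]
      have h16 : (0 : ℝ) < 16 ^ m := by positivity
      push_cast
      field_simp
      ring
  rw [key, cb_sq]
  ring

theorem tendsto_sum : Tendsto (fun m : ℕ => ∑ k ∈ Finset.range m, (catalan k : ℝ) ^ 2 / 16 ^ k)
    atTop (𝓝 (16 / π - 4)) := by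
  have h1 : Tendsto (fun m : ℕ => (16 * (m : ℝ) + 4) / (2 * m + 1)) atTop (𝓝 8) := by
    have h2 : Tendsto (fun m : ℕ => (4 : ℝ) / (2 * (m : ℝ) + 1)) atTop (𝓝 0) := by
      apply Tendsto.div_atTop tendsto_const_nhds
      apply tendsto_atTop_add_const_right
      exact Tendsto.const_mul_atTop (by norm_num) tendsto_natCast_atTop_atTop
    have h3 : (fun m : ℕ => (16 * (m : ℝ) + 4) / (2 * m + 1)) =
        fun m : ℕ => 8 - 4 / (2 * (m : ℝ) + 1) := by
      funext m
      have : (0 : ℝ) < 2 * (m : ℝ) + 1 := by positivity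
      field_simp
      ring
    rw [h3]
    simpa using tendsto_const_nhds.sub h2
  have h4 := Real.Wallis.tendsto_W_nhds_pi_div_two
  have hpi : (0 : ℝ) < π := Real.pi_pos
  have h5 : Tendsto (fun m : ℕ => (16 * (m : ℝ) + 4) / (2 * m + 1) / Real.Wallis.W m - 4) atTop
      (𝓝 (8 / (π / 2) - 4)) := (h1.div h4 (by positivity)).sub tendsto_const_nhds
  have h6 : (8 : ℝ) / (π / 2) - 4 = 16 / π - 4 := by field_simp; ring
  rw [h6] at h5
  refine h5.congr ?_
  intro m
  rw [sum_closed, div_div]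

theorem growth (r : ℝ) (hr : π / (4 - π) < r) : ∃ C : ℝ, ∀ n : ℕ, (foldings n : ℝ) ≤ C * r ^ n := by
  have hpi3 := Real.pi_gt_three
  have hpi4 := Real.pi_lt_d2
  have hpos : (0 : ℝ) < 4 - π := by linarith
  have hr0 : 0 < r := lt_trans (div_pos Real.pi_pos hpos) hr
  -- choose K
  have h1 : Tendsto (fun m : ℕ => 4 / ∑ k ∈ Finset.range m, (catalan k : ℝ) ^ 2 / 16 ^ k)
      atTop (𝓝 (4 / (16 / π - 4))) := by
    refine tendsto_const_nhds.div tendsto_sum ?_
    have : (16 : ℝ) / π - 4 = 4 * (4 - π) / π := by field_simp; ring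
    rw [this]
    positivity
  have h2 : (4 : ℝ) / (16 / π - 4) = π / (4 - π) := by
    have h3 : (16 : ℝ) / π - 4 = 4 * (4 - π) / π := by field_simp; ring
    rw [h3]; field_simp
  rw [h2] at h1
  obtain ⟨K, hK⟩ := (((tendsto_order.1 h1).2 r hr).and (eventually_ge_atTop 1)).exists
  obtain ⟨hK, hK1⟩ := hK
  obtain ⟨K, rfl⟩ : ∃ K', K = K' + 1 := ⟨K - 1, by omega⟩
  set S : ℝ → ℝ := fun x => ∑ k ∈ Finset.range (K + 1), (catalan k : ℝ) ^ 2 * x ^ (2 * k) with hS
  have hS4 : S (1 / 4) = ∑ k ∈ Finset.range (K + 1), (catalan k : ℝ) ^ 2 / 16 ^ k := by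
    rw [hS]
    refine Finset.sum_congr rfl ?_
    intro k _
    rw [pow_mul, show ((1 : ℝ) / 4) ^ 2 = 16⁻¹ by norm_num, inv_pow, div_eq_mul_inv]
  have hScont : Continuous S := by
    rw [hS]; fun_prop
  have hS1 : ∀ x : ℝ, 0 ≤ x → 1 ≤ S x := by
    intro x hx
    rw [hS]
    simp only
    rw [Finset.sum_range_succ']
    have : 0 ≤ ∑ k ∈ Finset.range K, (catalan (k + 1) : ℝ) ^ 2 * x ^ (2 * (k + 1)) :=
      Finset.sum_nonneg (fun k _ => by positivity)
    simp only [catalan_zero, Nat.cast_one, one_pow, mul_zero, pow_zero, mul_one]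
    linarith
  -- choose t
  have hcont : ContinuousAt (fun t : ℝ => (4 + 5 * t) / S (1 / (4 + 5 * t))) 0 := by
    refine ContinuousAt.div (by fun_prop) ?_ ?_
    · refine hScont.continuousAt.comp ?_
      refine ContinuousAt.div continuousAt_const (by fun_prop) (by norm_num)
    · have := hS1 (1 / (4 + 5 * 0)) (by norm_num)
      linarith
  have hlt0 : (fun t : ℝ => (4 + 5 * t) / S (1 / (4 + 5 * t))) 0 < r := by
    simp only [mul_zero, add_zero]
    rw [hS4]; exact hK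
  have hev := hcont.eventually_lt continuousAt_const hlt0
  obtain ⟨ε, hε, hball⟩ := Metric.eventually_nhds_iff.1 hev
  set t : ℝ := min 1 (ε / 2) with ht
  have ht0 : 0 < t := lt_min one_pos (by linarith)
  have ht1 : t ≤ 1 := min_le_left _ _
  have hq : (4 + 5 * t) / S (1 / (4 + 5 * t)) < r := by
    apply hball
    rw [Real.dist_eq, sub_zero, abs_of_pos ht0]
    have : t ≤ ε / 2 := min_le_right _ _
    linarith
  set x : ℝ := 1 / (4 + 5 * t) with hx
  have hx0 : 0 < x := by rw [hx]; positivity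
  have hxt : 4 * x + 5 * (t * x) = 1 := by
    rw [hx]
    have : (4 + 5 * t) ≠ 0 := by positivity
    field_simp
  have hSx := hS1 x hx0.le
  have hSx0 : 0 < S x := by linarith
  set q : ℝ := (4 + 5 * t) / S x with hqdef
  have hq0 : 0 < q := by rw [hqdef]; positivity
  have hqx : q * (x * S x) = 1 := by
    have h6 : (4 + 5 * t) ≠ 0 := by positivity
    have h7 : x * (4 + 5 * t) = 1 := by rw [hx]; field_simp
    have h8 : (4 + 5 * t) / S x * (x * S x) = x * (4 + 5 * t) * (S x / S x) := by ring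
    rw [hqdef, h8, h7, div_self hSx0.ne', one_mul]
  -- the polynomial factor is absorbed
  have hlim : Tendsto (fun n : ℕ => (n : ℝ) ^ 2 * (q / r) ^ n) atTop (𝓝 0) := by
    apply tendsto_pow_const_mul_const_pow_of_abs_lt_one
    rw [abs_of_pos (div_pos hq0 hr0), div_lt_one hr0]
    exact hq
  obtain ⟨B, hB⟩ := hlim.bddAbove_range
  have hB' : ∀ n : ℕ, (n : ℝ) ^ 2 * (q / r) ^ n ≤ B := fun n => hB ⟨n, rfl⟩
  have hqr1 : q / r < 1 := by rw [div_lt_one hr0]; exact hq
  have hqr0 : 0 < q / r := div_pos hq0 hr0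
  set D : ℝ := (4 + 8 * K + 4) * 4 with hD
  refine ⟨D * (B + 1) / (x * t ^ 2 * S x ^ 2), ?_⟩
  intro n
  have hmain := main_ineq n K t x ht0 ht1 hx0 hxt
  have hSdef : ∑ k ∈ Finset.range (K + 1), (catalan k : ℝ) ^ 2 * x ^ (2 * k) = S x := rfl
  rw [hSdef] at hmain
  have hfac : (foldings n : ℝ) * (x * t ^ 2 * S x ^ 2) * (x * S x) ^ n ≤
      (n + 1) * ((n + 1) + (n + 2) * (2 * K) + 1) := by
    refine le_trans (le_of_eq ?_) hmain
    rw [pow_succ, pow_add, mul_pow]
    ring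
  have hpoly : ((n : ℝ) + 1) * ((n + 1) + (n + 2) * (2 * K) + 1) ≤ D * ((n : ℝ) ^ 2 + 1) := by
    rw [hD]
    have hn : (0 : ℝ) ≤ n := Nat.cast_nonneg n
    have hKn : (0 : ℝ) ≤ K := Nat.cast_nonneg K
    nlinarith [mul_nonneg hn hKn, mul_nonneg (sq_nonneg ((n : ℝ) - 1)) hKn,
      sq_nonneg ((n : ℝ) - 1), mul_nonneg (mul_nonneg hn hn) hKn]
  have hxS : 0 < x * S x := by positivity
  have hc0 : 0 < x * t ^ 2 * S x ^ 2 := by positivity
  have hqn : q ^ n * (x * S x) ^ n = 1 := by rw [← mul_pow, hqx, one_pow]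
  have hb1 : (foldings n : ℝ) * (x * t ^ 2 * S x ^ 2) ≤ D * ((n : ℝ) ^ 2 + 1) * q ^ n := by
    have h5 := mul_le_mul_of_nonneg_right (le_trans hfac hpoly) (pow_pos hq0 n).le
    calc (foldings n : ℝ) * (x * t ^ 2 * S x ^ 2) =
        (foldings n : ℝ) * (x * t ^ 2 * S x ^ 2) * (q ^ n * (x * S x) ^ n) := by
          rw [hqn, mul_one]
      _ = (foldings n : ℝ) * (x * t ^ 2 * S x ^ 2) * (x * S x) ^ n * q ^ n := by ring
      _ ≤ D * ((n : ℝ) ^ 2 + 1) * q ^ n := h5
  have hb2 : ((n : ℝ) ^ 2 + 1) * q ^ n ≤ (B + 1) * r ^ n := by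
    have e1 : q ^ n = (q / r) ^ n * r ^ n := by
      rw [← mul_pow, div_mul_cancel₀ _ hr0.ne']
    have e2 : (q / r) ^ n ≤ 1 := pow_le_one₀ hqr0.le hqr1.le
    rw [e1, ← mul_assoc]
    refine mul_le_mul_of_nonneg_right ?_ (pow_pos hr0 n).le
    have := hB' n
    nlinarith
  have hD0 : 0 ≤ D := by rw [hD]; positivity
  rw [div_mul_eq_mul_div, le_div_iff₀ hc0]
  calc (foldings n : ℝ) * (x * t ^ 2 * S x ^ 2) ≤ D * ((n : ℝ) ^ 2 + 1) * q ^ n := hb1
    _ = D * (((n : ℝ) ^ 2 + 1) * q ^ n) := by ring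
    _ ≤ D * ((B + 1) * r ^ n) := mul_le_mul_of_nonneg_left hb2 hD0
    _ = D * (B + 1) * r ^ n := by ring

end Pool.Agent.Helper976.Stamp
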